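import Pool.Agent.N242.TG.Lower

open MeasureTheory Set

namespace Pool.Agent.N242.TG

theorem sum_arith (N : ℕ) :
    ∑ j ∈ Finset.range N, (1 / 2 : ℝ) ^ (j + 1) * (j + 1) = 2 - (N + 2) * (1 / 2) ^ N := by
  induction N with
  | zero => simp
  | succ k ih => rw [Finset.sum_range_succ, ih]; push_cast; ring

theorem sum_arith_le (N : ℕ) :
    ∑ j ∈ Finset.range N, (1 / 2 : ℝ) ^ (j + 1) * (j + 1) ≤ 2 := by
  rw [sum_arith]
  have : (0:ℝ) ≤ (N + 2) * (1 / 2) ^ N := by positivity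
  linarith

/-- tail of the linear form -/
theorem ell_tail {n i₀ : ℕ} (hi : i₀ < n) {S : Finset ℕ} (hS : S ⊆ Finset.range n) {z : E 2}
    (h0 : 0 < z 0) (h1 : (i₀ : ℝ) / n * z 0 ≤ z 1) (h1' : z 1 ≤ (i₀ + 1 : ℝ) / n * z 0) :
    ell n (S ∩ Finset.range i₀) z - 2 * (1 / 2) ^ i₀ / n * z 0 ≤ ell n S z ∧
      ell n S z ≤ ell n (S ∩ Finset.range i₀) z := by
  have hn : (0 : ℝ) < n := by exact_mod_cast (by omega : 0 < n)
  have hsplit : ell n S z = ell n (S ∩ Finset.range i₀) z +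
      ∑ i ∈ S \ Finset.range i₀, (1 / 2 : ℝ) ^ (i + 1) * (z 1 - ((i + 1 : ℝ) / n) * z 0) := by
    rw [ell_eq, ell_eq, ← Finset.sum_inter_add_sum_sdiff S (Finset.range i₀)]
  have hterm : ∀ i ∈ S \ Finset.range i₀,
      -((1 / 2 : ℝ) ^ (i + 1) * ((i + 1 - i₀ : ℝ) / n * z 0)) ≤
        (1 / 2 : ℝ) ^ (i + 1) * (z 1 - ((i + 1 : ℝ) / n) * z 0) ∧
      (1 / 2 : ℝ) ^ (i + 1) * (z 1 - ((i + 1 : ℝ) / n) * z 0) ≤ 0 := by
    intro i hi
    rw [Finset.mem_sdiff, Finset.mem_range, not_lt] at hi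
    have hi' : (i₀ : ℝ) ≤ i := by exact_mod_cast hi.2
    constructor
    · rw [← mul_neg]
      apply mul_le_mul_of_nonneg_left _ (by positivity)
      have : (i + 1 - i₀ : ℝ) / n * z 0 = (i + 1 : ℝ) / n * z 0 - (i₀ : ℝ) / n * z 0 := by ring
      rw [this]; linarith
    · apply mul_nonpos_of_nonneg_of_nonpos (by positivity)
      have : (i₀ + 1 : ℝ) / n * z 0 ≤ (i + 1 : ℝ) / n * z 0 := by gcongr
      linarith
  have hup : ∑ i ∈ S \ Finset.range i₀, (1 / 2 : ℝ) ^ (i + 1) * (z 1 - ((i + 1 : ℝ) / n) * z 0) ≤ 0 :=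
    Finset.sum_nonpos fun i hi => (hterm i hi).2
  have hlow : -(2 * (1 / 2) ^ i₀ / n * z 0) ≤
      ∑ i ∈ S \ Finset.range i₀, (1 / 2 : ℝ) ^ (i + 1) * (z 1 - ((i + 1 : ℝ) / n) * z 0) := by
    calc -(2 * (1 / 2) ^ i₀ / n * z 0) ≤
          -(∑ i ∈ S \ Finset.range i₀, (1 / 2 : ℝ) ^ (i + 1) * ((i + 1 - i₀ : ℝ) / n * z 0)) := by
          apply neg_le_neg
          calc ∑ i ∈ S \ Finset.range i₀, (1 / 2 : ℝ) ^ (i + 1) * ((i + 1 - i₀ : ℝ) / n * z 0)
              ≤ ∑ i ∈ Finset.Ico i₀ n, (1 / 2 : ℝ) ^ (i + 1) * ((i + 1 - i₀ : ℝ) / n * z 0) := by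
                apply Finset.sum_le_sum_of_subset_of_nonneg
                · intro i hi
                  rw [Finset.mem_sdiff, Finset.mem_range, not_lt] at hi
                  rw [Finset.mem_Ico]
                  exact ⟨hi.2, Finset.mem_range.1 (hS hi.1)⟩
                · intro i hi _
                  rw [Finset.mem_Ico] at hi
                  have hi' : (i₀ : ℝ) ≤ i := by exact_mod_cast hi.1
                  have : (0 : ℝ) ≤ (i + 1 - i₀ : ℝ) / n := by
                    apply div_nonneg (by linarith) hn.le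
                  positivity
            _ = ∑ j ∈ Finset.range (n - i₀), (1 / 2) ^ i₀ / n * z 0 * ((1 / 2 : ℝ) ^ (j + 1) * (j + 1)) := by
                rw [Finset.sum_Ico_eq_sum_range]
                apply Finset.sum_congr rfl
                intro j _
                push_cast
                rw [show i₀ + j + 1 = i₀ + (j + 1) by ring, pow_add]
                ring
            _ = (1 / 2) ^ i₀ / n * z 0 * ∑ j ∈ Finset.range (n - i₀), ((1 / 2 : ℝ) ^ (j + 1) * (j + 1)) := by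
                rw [Finset.mul_sum]
            _ ≤ (1 / 2) ^ i₀ / n * z 0 * 2 := by
                apply mul_le_mul_of_nonneg_left (sum_arith_le _) (by positivity)
            _ = 2 * (1 / 2) ^ i₀ / n * z 0 := by ring
      _ = ∑ i ∈ S \ Finset.range i₀, -((1 / 2 : ℝ) ^ (i + 1) * ((i + 1 - i₀ : ℝ) / n * z 0)) := by
          rw [Finset.sum_neg_distrib]
      _ ≤ _ := Finset.sum_le_sum fun i hi => (hterm i hi).1
  constructor
  · rw [hsplit]; linarith
  · rw [hsplit]; linarith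

/-- the boxes which cover the union of the tubes -/
def BB (n i₀ : ℕ) (β : Finset ℕ) : Set (E 2) :=
  {z | z 0 ∈ Ioo 0 1 ∧ z 1 - (i₀ : ℝ) / n * z 0 ∈ Ioc 0 (1 / n : ℝ) ∧
    z 2 - (th β * z 1 + (-et n β) * z 0) ∈
      Icc (-(2 * (1 / 2) ^ i₀ / (n : ℝ) + (1 / 2) ^ n / 2)) ((1 / 2 : ℝ) ^ n / 2)}

theorem vol_BB (n i₀ : ℕ) (hn : 1 ≤ n) (β : Finset ℕ) :
    volume (BB n i₀ β) = ENNReal.ofReal (1 / n * (2 * (1 / 2) ^ i₀ / n + (1 / 2) ^ n)) := by
  unfold BB
  rw [box_vol _ _ _ measurableSet_Ioo measurableSet_Ioc measurableSet_Icc, Real.volume_Ioo,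
    Real.volume_Ioc, Real.volume_Icc]
  simp only [sub_zero, ENNReal.ofReal_one, one_mul]
  rw [← ENNReal.ofReal_mul (by positivity)]
  congr 1
  ring

theorem cover {n : ℕ} (hn : 1 ≤ n) {S : Finset ℕ} (hS : S ⊆ Finset.range n) {x : Sph 2}
    (hx : x ∈ TT n S) {r : ℝ} (hr : r ∈ Ioo (0:ℝ) 1) :
    r • (x : E 2) ∈ ⋃ i₀ ∈ Finset.range n, ⋃ β ∈ (Finset.range i₀).powerset, BB n i₀ β := by
  obtain ⟨h0, h1, h2, h3⟩ := hx
  obtain ⟨hr0, hr1⟩ := hr
  have hn' : (0 : ℝ) < n := by exact_mod_cast hn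
  set z : E 2 := r • (x : E 2) with hz
  have hc : ∀ i, z i = r * (x : E 2) i := fun i => by rw [hz]; simp
  have hx1 : ‖(x : E 2)‖ = 1 := by simp
  have hx0 : (x : E 2) 0 ≤ 1 := by
    have := PiLp.norm_apply_le (x : E 2) 0
    rw [hx1, Real.norm_eq_abs] at this
    exact (le_abs_self _).trans this
  have z0 : 0 < z 0 := by rw [hc]; positivity
  have z0' : z 0 < 1 := by rw [hc]; nlinarith
  have z1 : 0 < z 1 := by rw [hc]; positivity
  have z12 : 2 * z 1 < z 0 := by rw [hc, hc]; nlinarith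
  have z3 : |z 2 - ell n S z| ≤ (1 / 2) ^ n * z 0 / 2 := by
    have e : z 2 - ell n S z = r * ((x : E 2) 2 - ell n S x) := by
      unfold ell
      rw [hc 0, hc 1, hc 2]; ring
    rw [e, abs_mul, abs_of_pos hr0, hc 0]
    calc _ ≤ r * ((1 / 2) ^ n * (x : E 2) 0 / 2) := by gcongr
      _ = _ := by ring
  -- the index
  have hs0 : 0 < z 1 / z 0 * n := by positivity
  have hs1 : z 1 / z 0 * n < n := by
    have : z 1 / z 0 < 1 := by rw [div_lt_one z0]; linarith
    nlinarith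
  set c := ⌈z 1 / z 0 * n⌉₊ with hcdef
  have hc1 : 0 < c := Nat.ceil_pos.2 hs0
  have hc2 : c ≤ n := by
    rw [hcdef, Nat.ceil_le]; exact hs1.le
  obtain ⟨i₀, hi₀⟩ : ∃ i₀, c = i₀ + 1 := ⟨c - 1, by omega⟩
  have hi : i₀ < n := by omega
  have ha : (i₀ : ℝ) < z 1 / z 0 * n := by
    have : i₀ < ⌈z 1 / z 0 * n⌉₊ := by omega
    exact Nat.lt_ceil.1 this
  have hb : z 1 / z 0 * n ≤ (i₀ + 1 : ℝ) := by
    have := Nat.le_ceil (z 1 / z 0 * n)
    rw [← hcdef, hi₀] at this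
    exact_mod_cast this
  have ha' : (i₀ : ℝ) / n * z 0 < z 1 := by
    have e1 : z 1 = (z 1 / z 0 * n) / n * z 0 := by field_simp
    rw [e1]
    gcongr
  have hb' : z 1 ≤ (i₀ + 1 : ℝ) / n * z 0 := by
    have e1 : z 1 = (z 1 / z 0 * n) / n * z 0 := by field_simp
    rw [e1]
    gcongr
  obtain ⟨t1, t2⟩ := ell_tail hi hS z0 ha'.le hb'
  have hp : (0 : ℝ) < (1 / 2) ^ n := by positivity
  have hpi : (0 : ℝ) < (1 / 2) ^ i₀ := by positivity
  simp only [mem_iUnion]
  refine ⟨i₀, Finset.mem_range.2 hi, S ∩ Finset.range i₀, ?_, ?_⟩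
  · rw [Finset.mem_powerset]; exact Finset.inter_subset_right
  · refine ⟨⟨z0, z0'⟩, ⟨by linarith, ?_⟩, ?_⟩
    · have : (i₀ + 1 : ℝ) / n * z 0 = (i₀ : ℝ) / n * z 0 + 1 / n * z 0 := by ring
      have h5 : 1 / (n : ℝ) * z 0 ≤ 1 / n * 1 := by gcongr
      linarith
    · have e : th (S ∩ Finset.range i₀) * z 1 + -et n (S ∩ Finset.range i₀) * z 0 =
          ell n (S ∩ Finset.range i₀) z := by unfold ell; ring
      rw [e]
      rw [abs_le] at z3
      have h6 : (1 / 2) ^ n * z 0 ≤ (1 / 2) ^ n * 1 := by gcongr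
      have h7 : 2 * (1 / 2) ^ i₀ / n * z 0 ≤ 2 * (1 / 2) ^ i₀ / n * 1 := by gcongr
      constructor
      · linarith
      · linarith

theorem vol_GG (n : ℕ) (hn : 1 ≤ n) : (vol 2).real (GG n) ≤ 9 / n := by
  have hn' : (0 : ℝ) < n := by exact_mod_cast hn
  have h1 : vol 2 (GG n) ≤ 3 * volume (⋃ i₀ ∈ Finset.range n, ⋃ β ∈ (Finset.range i₀).powerset, BB n i₀ β) := by
    apply vol_le_of (meas_GG n)
    intro x hx r hr
    unfold GG at hx
    simp only [mem_iUnion] at hx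
    obtain ⟨S, hS, hx⟩ := hx
    exact cover hn (Finset.mem_powerset.1 hS) hx hr
  have h2 : volume (⋃ i₀ ∈ Finset.range n, ⋃ β ∈ (Finset.range i₀).powerset, BB n i₀ β) ≤
      ENNReal.ofReal (3 / n) := by
    calc _ ≤ ∑ i₀ ∈ Finset.range n, volume (⋃ β ∈ (Finset.range i₀).powerset, BB n i₀ β) :=
          measure_biUnion_finset_le _ _
      _ ≤ ∑ i₀ ∈ Finset.range n, ∑ β ∈ (Finset.range i₀).powerset, volume (BB n i₀ β) := by
          gcongr with i₀ _
          exact measure_biUnion_finset_le _ _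
      _ = ∑ i₀ ∈ Finset.range n, ENNReal.ofReal (2 / n ^ 2 + (1 / 2) ^ (n - i₀) / n) := by
          apply Finset.sum_congr rfl
          intro i₀ hi
          rw [Finset.mem_range] at hi
          simp_rw [vol_BB n i₀ hn]
          rw [Finset.sum_const, Finset.card_powerset, Finset.card_range, nsmul_eq_mul,
            show ((2 ^ i₀ : ℕ) : ENNReal) = ENNReal.ofReal (2 ^ i₀) by
              rw [ENNReal.ofReal_pow (by norm_num)]; simp,
            ← ENNReal.ofReal_mul (by positivity)]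
          congr 1
          have e1 : (1 / 2 : ℝ) ^ n = (1 / 2) ^ (n - i₀) * (1 / 2) ^ i₀ := by
            rw [← pow_add]; congr 1; omega
          have e2 : (2 : ℝ) ^ i₀ * (1 / 2) ^ i₀ = 1 := by rw [← mul_pow]; norm_num
          rw [e1]
          calc _ = (2 / (n : ℝ) ^ 2 + (1 / 2) ^ (n - i₀) / n) * (2 ^ i₀ * (1 / 2) ^ i₀) := by
                field_simp
            _ = _ := by rw [e2, mul_one]
      _ = ENNReal.ofReal (∑ i₀ ∈ Finset.range n, (2 / (n : ℝ) ^ 2 + (1 / 2) ^ (n - i₀) / n)) := by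
          rw [ENNReal.ofReal_sum_of_nonneg]
          intro i _; positivity
      _ ≤ _ := by
          apply ENNReal.ofReal_le_ofReal
          rw [Finset.sum_add_distrib, Finset.sum_const, Finset.card_range, nsmul_eq_mul,
            ← Finset.sum_div]
          have e3 : ∑ i₀ ∈ Finset.range n, (1 / 2 : ℝ) ^ (n - i₀) ≤ 1 := by
            have : ∑ i₀ ∈ Finset.range n, (1 / 2 : ℝ) ^ (n - i₀) =
                ∑ j ∈ Finset.range n, (1 / 2 : ℝ) ^ (j + 1) := by
              rw [← Finset.sum_range_reflect]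
              apply Finset.sum_congr rfl
              intro j hj
              rw [Finset.mem_range] at hj
              congr 1
              omega
            rw [this, geom_half]
            have : (0:ℝ) ≤ (1/2)^n := by positivity
            linarith
          calc (n : ℝ) * (2 / (n : ℝ) ^ 2) + (∑ i₀ ∈ Finset.range n, (1 / 2 : ℝ) ^ (n - i₀)) / n
              ≤ (n : ℝ) * (2 / (n : ℝ) ^ 2) + 1 / (n : ℝ) := by gcongr
            _ = 3 / (n : ℝ) := by field_simp; norm_num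
  have h3 : vol 2 (GG n) ≤ ENNReal.ofReal (9 / n) := by
    calc _ ≤ _ := h1
      _ ≤ 3 * ENNReal.ofReal (3 / n) := by gcongr
      _ = _ := by
        rw [show (3 : ENNReal) = ENNReal.ofReal 3 by simp, ← ENNReal.ofReal_mul (by norm_num)]
        congr 1; ring
  unfold Measure.real
  exact ENNReal.toReal_le_of_le_ofReal (by positivity) h3

theorem t_lower : StLower :=
  ⟨9 / 512, by norm_num, 9, by norm_num, fun n hn => ⟨GG n, meas_GG n, vol_GG n hn, int_FF_lower n hn⟩⟩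

end Pool.Agent.N242.TG
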