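import Mathlib

open MeasureTheory

namespace Pool.Agent.N242.TG

noncomputable section

/-- Euclidean space of dimension m+1. -/
abbrev E (m : ℕ) := EuclideanSpace ℝ (Fin (m + 1))

/-- The round sphere of dimension m. -/
abbrev Sph (m : ℕ) := Metric.sphere (0 : E m) 1

/-- The Riemannian volume of the round sphere. -/
def vol (m : ℕ) : Measure (Sph m) := (volume : Measure (E m)).toSphere

/-- The geodesic distance of the round sphere. -/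
def gdist {m : ℕ} (x y : Sph m) : ℝ := InnerProductGeometry.angle (x : E m) (y : E m)

/-- Great circles (closed geodesics). -/
def IsGreatCircle {m : ℕ} (γ : Set (Sph m)) : Prop :=
  ∃ a b : E m, ‖a‖ = 1 ∧ ‖b‖ = 1 ∧ inner ℝ a b = 0 ∧
    γ = {x | ∃ t : ℝ, (x : E m) = Real.cos t • a + Real.sin t • b}

/-- The tube of radius R around a set γ. -/
def tube {m : ℕ} (γ : Set (Sph m)) (R : ℝ) : Set (Sph m) :=
  {x | ∃ y ∈ γ, gdist x y < R}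

/-- The tubular geometric control condition. -/
def TGCC (m : ℕ) (A : ℝ → Set (Sph m)) : Prop :=
  ∃ c : ℝ, 0 < c ∧ ∃ ρ : ℝ, 0 < ρ ∧ ∀ γ : Set (Sph m), IsGreatCircle γ → ∀ lam : ℝ, 1 ≤ lam →
    ENNReal.ofReal ρ * vol m (tube γ (c * lam ^ (-(1 / 2) : ℝ))) ≤
      vol m (A lam ∩ tube γ (c * lam ^ (-(1 / 2) : ℝ)))

/-- The function e on the sphere is smooth and satisfies -Δe = lam^2 e.  The Laplace-Beltrami operator
is computed as the sum of the second derivatives along m orthogonal unit speed geodesics. -/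
def IsEigen (m : ℕ) (lam : ℝ) (e : Sph m → ℂ) : Prop :=
  ∃ g : E m → ℂ, ContDiff ℝ (⊤ : ℕ∞) g ∧ (∀ x : Sph m, g x = e x) ∧
    ∀ (x : Sph m) (v : Fin m → E m), Orthonormal ℝ v → (∀ i, inner ℝ (x : E m) (v i) = 0) →
      ∑ i, iteratedDeriv 2 (fun t : ℝ => g (Real.cos t • (x : E m) + Real.sin t • v i)) 0 =
        -((lam : ℂ) ^ 2) * e x

/-- The family A is L^p-Logvinenko-Sereda for eigenfunctions. -/
def LS (m : ℕ) (p : ℝ) (A : ℝ → Set (Sph m)) : Prop :=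
  ∃ C : ℝ, 0 < C ∧ ∀ lam : ℝ, 1 ≤ lam → ∀ e : Sph m → ℂ, IsEigen m lam e →
    C * ∫ x, ‖e x‖ ^ p ∂(vol m) ≤ ∫ x in A lam, ‖e x‖ ^ p ∂(vol m)

/-- The statement of the question. -/
def Q1 : Prop :=
  ∀ m : ℕ, 2 ≤ m → ∀ p : ℝ, 1 ≤ p → p < 2 * m / (m - 1) → ∀ A : ℝ → Set (Sph m),
    (∀ lam, MeasurableSet (A lam)) → TGCC m A → LS m p A

/-! ### The counterexample -/

/-- The open set. -/
def Aset : Set (Sph 2) :=
  {x | 9 / 10 < |(x : E 2) 2|} ∪ {x | 0 < (x : E 2) 0 * (x : E 2) 1 ∧ 2 * |(x : E 2) 0| < |(x : E 2) 1|}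

/-- slope in the direction of the coordinate 1 -/
def th (S : Finset ℕ) : ℝ := ∑ i ∈ S, (1 / 2 : ℝ) ^ (i + 1)

/-- slope in the direction of the coordinate 0 -/
def et (n : ℕ) (S : Finset ℕ) : ℝ := ∑ i ∈ S, (1 / 2 : ℝ) ^ (i + 1) * ((i + 1 : ℝ) / n)

/-- (not normalised) normal vector of the plane of the great circle with index S -/
def nv (n : ℕ) (S : Finset ℕ) : E 2 := !₂[et n S, -th S, 1]

/-- square of the absolute value of the beam with index S, of degree 4^n -/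
def bm (n : ℕ) (S : Finset ℕ) (x : Sph 2) : ℝ :=
  (1 - (inner ℝ (nv n S) (x : E 2)) ^ 2 / ‖nv n S‖ ^ 2) ^ (4 ^ n)

/-- the square function -/
def FF (n : ℕ) (x : Sph 2) : ℝ := ∑ S ∈ (Finset.range n).powerset, bm n S x

/-- tgcc -/
def StTgcc : Prop := TGCC 2 (fun _ => Aset)

/-- upper bound on A -/
def StUpper : Prop := ∃ C : ℝ, ∀ n : ℕ, 1 ≤ n → ∀ x ∈ Aset, FF n x ≤ C

/-- lower bound -/
def StLower : Prop := ∃ c : ℝ, 0 < c ∧ ∃ C : ℝ, 0 < C ∧ ∀ n : ℕ, 1 ≤ n → ∃ G : Set (Sph 2), MeasurableSet G ∧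
  (vol 2).real G ≤ C / n ∧ c ≤ ∫ x in G, FF n x ∂(vol 2)

/-- random sign sum -/
def rs {ι : Type} [DecidableEq ι] (s : Finset ι) (a : ι → ℂ) (t : Finset ι) : ℂ :=
  ∑ i ∈ s, (if i ∈ t then a i else -a i)

/-- Khintchine -/
def StSign : Prop := ∀ (s : Finset (Finset ℕ)) (a : Finset ℕ → ℂ) (p : ℝ), 2 ≤ p → p ≤ 4 →
  (∑ i ∈ s, ‖a i‖ ^ 2) ^ (p / 2) ≤ (2 ^ s.card : ℝ)⁻¹ * ∑ t ∈ s.powerset, ‖rs s a t‖ ^ p ∧
  (2 ^ s.card : ℝ)⁻¹ * ∑ t ∈ s.powerset, ‖rs s a t‖ ^ p ≤ 3 * (∑ i ∈ s, ‖a i‖ ^ 2) ^ (p / 2)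

/-- beams -/
def StBeam : Prop := ∀ N : E 2, ‖N‖ = 1 → ∃ w : E 2 → ℂ, Continuous w ∧
  (∀ x, ‖w x‖ ^ 2 = ‖x‖ ^ 2 - (inner ℝ N x) ^ 2) ∧
  ∀ k : ℕ, 1 ≤ k → ContDiff ℝ (⊤ : ℕ∞) (fun x => (w x) ^ k) ∧
    ∀ (x : Sph 2) (v : Fin 2 → E 2), Orthonormal ℝ v → (∀ i, inner ℝ (x : E 2) (v i) = 0) →
      ∑ i, iteratedDeriv 2 (fun t : ℝ => (w (Real.cos t • (x : E 2) + Real.sin t • v i)) ^ k) 0 =
        -((k * (k + 1) : ℝ) : ℂ) * (w x) ^ k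

end

end Pool.Agent.N242.TG
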