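import Pool.Agent.N242.TG.Vol

open MeasureTheory Set

namespace Pool.Agent.N242.TG

/-- linear form -/
noncomputable def ell (n : ℕ) (S : Finset ℕ) (z : E 2) : ℝ := th S * z 1 - et n S * z 0

theorem ell_eq (n : ℕ) (S : Finset ℕ) (z : E 2) :
    ell n S z = ∑ i ∈ S, (1 / 2 : ℝ) ^ (i + 1) * (z 1 - ((i + 1 : ℝ) / n) * z 0) := by
  unfold ell th et
  rw [Finset.sum_mul, Finset.sum_mul, ← Finset.sum_sub_distrib]
  apply Finset.sum_congr rfl
  intro i _; ring

theorem inner_nv (n : ℕ) (S : Finset ℕ) (x : E 2) : inner ℝ (nv n S) x = x 2 - ell n S x := by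
  unfold nv ell
  simp only [PiLp.inner_apply, Fin.sum_univ_three]
  simp
  ring

theorem norm_nv_sq (n : ℕ) (S : Finset ℕ) : ‖nv n S‖ ^ 2 = et n S ^ 2 + th S ^ 2 + 1 := by
  unfold nv
  rw [EuclideanSpace.norm_sq_eq, Fin.sum_univ_three]
  simp

theorem one_le_norm_nv_sq (n : ℕ) (S : Finset ℕ) : 1 ≤ ‖nv n S‖ ^ 2 := by
  rw [norm_nv_sq]; nlinarith [sq_nonneg (et n S), sq_nonneg (th S)]

theorem u_le_one (n : ℕ) (S : Finset ℕ) (x : Sph 2) :
    (inner ℝ (nv n S) (x : E 2)) ^ 2 / ‖nv n S‖ ^ 2 ≤ 1 := by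
  have h1 := one_le_norm_nv_sq n S
  rw [div_le_one (by linarith)]
  have hx : ‖(x : E 2)‖ = 1 := by simp
  have := abs_real_inner_le_norm (nv n S) (x : E 2)
  rw [hx, mul_one] at this
  rw [← sq_abs]
  gcongr

theorem bm_nonneg (n : ℕ) (S : Finset ℕ) (x : Sph 2) : 0 ≤ bm n S x := by
  unfold bm
  apply pow_nonneg
  linarith [u_le_one n S x]

theorem continuous_bm (n : ℕ) (S : Finset ℕ) : Continuous (bm n S) := by
  unfold bm
  fun_prop

theorem geom_half (n : ℕ) : ∑ i ∈ Finset.range n, (1 / 2 : ℝ) ^ (i + 1) = 1 - (1 / 2) ^ n := by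
  induction n with
  | zero => simp
  | succ k ih => rw [Finset.sum_range_succ, ih]; ring

theorem th_nonneg (S : Finset ℕ) : 0 ≤ th S := Finset.sum_nonneg fun i _ => by positivity

theorem th_le_one {n : ℕ} {S : Finset ℕ} (hS : S ⊆ Finset.range n) : th S ≤ 1 := by
  unfold th
  calc _ ≤ ∑ i ∈ Finset.range n, (1 / 2 : ℝ) ^ (i + 1) :=
        Finset.sum_le_sum_of_subset_of_nonneg hS fun i _ _ => by positivity
    _ = 1 - (1 / 2) ^ n := geom_half n
    _ ≤ 1 := by linarith [pow_nonneg (by norm_num : (0:ℝ) ≤ 1 / 2) n]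

theorem et_nonneg (n : ℕ) (S : Finset ℕ) : 0 ≤ et n S := Finset.sum_nonneg fun i _ => by positivity

theorem et_le_one {n : ℕ} {S : Finset ℕ} (hS : S ⊆ Finset.range n) : et n S ≤ 1 := by
  refine le_trans ?_ (th_le_one hS)
  unfold et th
  apply Finset.sum_le_sum
  intro i hi
  have hi' : i < n := Finset.mem_range.1 (hS hi)
  have hn : (0 : ℝ) < n := by exact_mod_cast (by omega : 0 < n)
  have : ((i + 1 : ℝ) / n) ≤ 1 := by
    rw [div_le_one hn]; exact_mod_cast hi'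
  calc _ ≤ (1 / 2 : ℝ) ^ (i + 1) * 1 := by gcongr
    _ = _ := mul_one _

/-- the part of the tube -/
def TT (n : ℕ) (S : Finset ℕ) : Set (Sph 2) :=
  {x | 0 < (x : E 2) 0 ∧ 0 < (x : E 2) 1 ∧ 2 * (x : E 2) 1 < (x : E 2) 0 ∧
    |(x : E 2) 2 - ell n S x| ≤ (1 / 2) ^ n * (x : E 2) 0 / 2}

theorem meas_TT (n : ℕ) (S : Finset ℕ) : MeasurableSet (TT n S) := by
  have c0 : Continuous fun x : Sph 2 => (x : E 2) 0 := by fun_prop
  have c1 : Continuous fun x : Sph 2 => (x : E 2) 1 := by fun_prop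
  have c2 : Continuous fun x : Sph 2 => |(x : E 2) 2 - ell n S x| := by unfold ell; fun_prop
  have c3 : Continuous fun x : Sph 2 => (1 / 2) ^ n * (x : E 2) 0 / 2 := by fun_prop
  exact ((isOpen_lt continuous_const c0).measurableSet.inter
    ((isOpen_lt continuous_const c1).measurableSet.inter
      ((isOpen_lt (continuous_const.mul c1) c0).measurableSet.inter
        (isClosed_le c2 c3).measurableSet)))

theorem vol_TT (n : ℕ) (hn : 1 ≤ n) (S : Finset ℕ) (hS : S ⊆ Finset.range n) :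
    ENNReal.ofReal (3 * ((1 / 2) ^ n / 128)) ≤ vol 2 (TT n S) := by
  have hp : (0 : ℝ) < (1 / 2) ^ n := by positivity
  have hp2 : (1 / 2 : ℝ) ^ n ≤ 1 / 2 := by
    calc (1 / 2 : ℝ) ^ n ≤ (1 / 2) ^ 1 := pow_le_pow_of_le_one (by norm_num) (by norm_num) hn
      _ = _ := by norm_num
  have hb := box_vol 0 (th S) (-et n S) (I0 := Ioo (1 / 4) (1 / 2)) (I1 := Ioo 0 (1 / 8))
    (I2 := Ioo (-((1 / 2) ^ n / 8)) ((1 / 2) ^ n / 8)) measurableSet_Ioo measurableSet_Ioo
    measurableSet_Ioo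
  have hle : 3 * volume {z : E 2 | z 0 ∈ Ioo (1 / 4) (1 / 2) ∧ z 1 - 0 * z 0 ∈ Ioo (0:ℝ) (1 / 8) ∧
      z 2 - (th S * z 1 + (-et n S) * z 0) ∈ Ioo (-((1 / 2) ^ n / 8)) ((1 / 2) ^ n / 8)} ≤
      vol 2 (TT n S) := by
    apply le_vol_of (meas_TT n S)
    rintro z ⟨⟨h0, h0'⟩, ⟨h1, h1'⟩, ⟨h2, h2'⟩⟩
    rw [zero_mul, sub_zero] at h1 h1'
    have t0 := th_nonneg S
    have t1 := th_le_one hS
    have e0 := et_nonneg n S
    have e1 := et_le_one hS
    have hz : z ≠ 0 := by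
      rintro rfl
      simp at h0
      linarith
    obtain ⟨x, hx⟩ := exists_sph hz
    have hr : 0 < ‖z‖ := norm_pos_iff.2 hz
    have hr1 : ‖z‖ < 1 := by
      have hsq : ‖z‖ ^ 2 < 1 := by
        rw [EuclideanSpace.norm_sq_eq, Fin.sum_univ_three]
        simp only [Real.norm_eq_abs, sq_abs]
        have a1 : th S * z 1 ≤ 1 / 8 := by nlinarith
        have a2 : 0 ≤ th S * z 1 := by positivity
        have a3 : et n S * z 0 ≤ 1 / 2 := by nlinarith
        have a4 : 0 ≤ et n S * z 0 := by positivity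
        have b1 : z 2 < 9 / 16 := by linarith
        have b2 : -(9 / 16) < z 2 := by linarith
        nlinarith
      nlinarith
    refine ⟨x, ?_, ‖z‖, ⟨hr, hr1⟩, hx⟩
    have hc : ∀ i, z i = ‖z‖ * (x : E 2) i := fun i => by
      conv_lhs => rw [hx]
      simp
    refine ⟨?_, ?_, ?_, ?_⟩
    · have : 0 < ‖z‖ * (x : E 2) 0 := by rw [← hc]; linarith
      exact (mul_pos_iff_of_pos_left hr).1 this
    · have : 0 < ‖z‖ * (x : E 2) 1 := by rw [← hc]; linarith
      exact (mul_pos_iff_of_pos_left hr).1 this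
    · have : 2 * (‖z‖ * (x : E 2) 1) < ‖z‖ * (x : E 2) 0 := by rw [← hc, ← hc]; linarith
      nlinarith
    · have h3 : |z 2 - ell n S z| ≤ (1 / 2) ^ n * z 0 / 2 := by
        unfold ell
        rw [abs_le]
        constructor
        · nlinarith
        · nlinarith
      have h4 : z 2 - ell n S z = ‖z‖ * ((x : E 2) 2 - ell n S x) := by
        unfold ell
        rw [hc 0, hc 1, hc 2]; ring
      rw [h4, abs_mul, abs_of_pos hr, hc 0] at h3
      have : ‖z‖ * |(x : E 2) 2 - ell n S x| ≤ ‖z‖ * ((1 / 2) ^ n * (x : E 2) 0 / 2) := by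
        calc _ ≤ _ := h3
          _ = _ := by ring
      exact le_of_mul_le_mul_left this hr
  refine le_trans ?_ hle
  rw [hb, Real.volume_Ioo, Real.volume_Ioo, Real.volume_Ioo, ← ENNReal.ofReal_mul (by norm_num),
    ← ENNReal.ofReal_mul (by norm_num), show (3 : ENNReal) = ENNReal.ofReal 3 by simp,
    ← ENNReal.ofReal_mul (by norm_num)]
  apply ENNReal.ofReal_le_ofReal
  apply le_of_eq
  ring

theorem bm_lower (n : ℕ) (S : Finset ℕ) (x : Sph 2) (hx : x ∈ TT n S) : 3 / 4 ≤ bm n S x := by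
  obtain ⟨h0, h1, h2, h3⟩ := hx
  have hx1 : ‖(x : E 2)‖ = 1 := by simp
  have hx0 : (x : E 2) 0 ≤ 1 := by
    have := PiLp.norm_apply_le (x : E 2) 0
    rw [hx1, Real.norm_eq_abs] at this
    exact (le_abs_self _).trans this
  have hp : (0 : ℝ) < (1 / 2) ^ n := by positivity
  have h4 : |(inner ℝ (nv n S) (x : E 2))| ≤ (1 / 2) ^ n / 2 := by
    rw [inner_nv]
    refine h3.trans ?_
    have : (1 / 2) ^ n * (x : E 2) 0 ≤ (1 / 2) ^ n * 1 := by gcongr
    linarith
  have h5 : (inner ℝ (nv n S) (x : E 2)) ^ 2 / ‖nv n S‖ ^ 2 ≤ (1 / 4) ^ n / 4 := by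
    have e : (inner ℝ (nv n S) (x : E 2)) ^ 2 ≤ (1 / 4) ^ n / 4 := by
      rw [← sq_abs]
      calc _ ≤ ((1 / 2 : ℝ) ^ n / 2) ^ 2 := by gcongr
        _ = ((1 / 2 : ℝ) ^ 2) ^ n / 4 := by rw [div_pow, ← pow_mul, ← pow_mul, mul_comm n 2]; norm_num
        _ = _ := by norm_num
    have h1 := one_le_norm_nv_sq n S
    calc _ ≤ (inner ℝ (nv n S) (x : E 2)) ^ 2 / 1 := by gcongr
      _ = _ := by rw [div_one]
      _ ≤ _ := e
  have h6 : (0:ℝ) < (1/4)^n := by positivity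
  have h7 : (1/4 : ℝ)^n ≤ 1 := pow_le_one₀ (by norm_num) (by norm_num)
  unfold bm
  have h8 := u_le_one n S x
  set u := (inner ℝ (nv n S) (x : E 2)) ^ 2 / ‖nv n S‖ ^ 2
  have h9 := one_add_mul_le_pow (a := -u) (by linarith) (4 ^ n)
  have h10 : ((4 ^ n : ℕ) : ℝ) * u ≤ 1 / 4 := by
    calc ((4 ^ n : ℕ) : ℝ) * u ≤ ((4 ^ n : ℕ) : ℝ) * ((1 / 4) ^ n / 4) := by gcongr
      _ = (4 * (1 / 4)) ^ n / 4 := by push_cast; rw [mul_pow]; ring
      _ = 1 / 4 := by norm_num
  calc (3 / 4 : ℝ) ≤ 1 + ((4 ^ n : ℕ) : ℝ) * (-u) := by linarith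
    _ ≤ (1 + -u) ^ (4 ^ n) := h9
    _ = _ := by ring_nf

/-- the union of the tubes -/
def GG (n : ℕ) : Set (Sph 2) := ⋃ S ∈ (Finset.range n).powerset, TT n S

theorem meas_GG (n : ℕ) : MeasurableSet (GG n) :=
  Finset.measurableSet_biUnion _ fun S _ => meas_TT n S

instance : IsFiniteMeasure (vol 2) := by unfold vol; infer_instance

theorem int_bm (n : ℕ) (S : Finset ℕ) : Integrable (bm n S) (vol 2) := by
  have h := (continuous_bm n S)
  exact h.integrable_of_hasCompactSupport (HasCompactSupport.of_compactSpace _)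

theorem int_FF_lower (n : ℕ) (hn : 1 ≤ n) : 9 / 512 ≤ ∫ x in GG n, FF n x ∂(vol 2) := by
  unfold FF
  rw [integral_finsetSum _ fun S _ => (int_bm n S).integrableOn]
  have h1 : ∀ S ∈ (Finset.range n).powerset, 9 / 512 * (1 / 2) ^ n ≤ ∫ x in GG n, bm n S x ∂(vol 2) := by
    intro S hS
    have hsub : TT n S ⊆ GG n := by
      intro x hx
      exact mem_biUnion (Finset.mem_coe.2 hS) hx
    calc 9 / 512 * (1 / 2) ^ n = (3 * ((1 / 2) ^ n / 128)) * (3 / 4) := by ring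
      _ ≤ (vol 2).real (TT n S) * (3 / 4) := by
          gcongr
          unfold Measure.real
          rw [← ENNReal.ofReal_le_iff_le_toReal (measure_ne_top _ _)]
          exact vol_TT n hn S (Finset.mem_powerset.1 hS)
      _ = ∫ x in TT n S, (3 / 4 : ℝ) ∂(vol 2) := by
          rw [setIntegral_const]; simp
      _ ≤ ∫ x in TT n S, bm n S x ∂(vol 2) := by
          apply setIntegral_mono_on (integrable_const _).integrableOn (int_bm n S).integrableOn
            (meas_TT n S)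
          intro x hx
          exact bm_lower n S x hx
      _ ≤ _ := by
          apply setIntegral_mono_set (int_bm n S).integrableOn
          · exact Filter.Eventually.of_forall fun x => bm_nonneg n S x
          · exact Filter.Eventually.of_forall hsub
  calc (9 / 512 : ℝ) = ∑ S ∈ (Finset.range n).powerset, 9 / 512 * (1 / 2 : ℝ) ^ n := by
        rw [Finset.sum_const, Finset.card_powerset, Finset.card_range, nsmul_eq_mul]
        push_cast
        rw [mul_comm (9 / 512 : ℝ), ← mul_assoc, ← mul_pow]; norm_num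
    _ ≤ _ := Finset.sum_le_sum h1

end Pool.Agent.N242.TG
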