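import Pool.Agent.N242.TG.Bes

open MeasureTheory Set Filter Topology

namespace Pool.Agent.N242.TG

/-- choice of the signs -/
theorem rs_eq {ι : Type} [DecidableEq ι] (s : Finset ι) (a : ι → ℂ) (t : Finset ι) :
    rs s a t = ∑ i ∈ s, (if i ∈ t then (1:ℂ) else -1) * a i := by
  unfold rs
  apply Finset.sum_congr rfl
  intro i _
  split_ifs <;> simp

/-- a combination of beams is an eigenfunction -/
theorem beams (hB : StBeam) (n : ℕ) : ∃ f : Finset ℕ → Sph 2 → ℂ,
    (∀ S x, ‖f S x‖ ^ 2 = bm n S x) ∧ (∀ S, Continuous (f S)) ∧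
    ∀ t : Finset (Finset ℕ), ∀ s : Finset (Finset ℕ),
      IsEigen 2 (Real.sqrt ((4 ^ n : ℕ) * ((4 ^ n : ℕ) + 1))) (fun x => rs s (fun S => f S x) t) := by
  have hN : ∀ S, ‖(‖nv n S‖⁻¹ • nv n S : E 2)‖ = 1 := by
    intro S
    have h1 := one_le_norm_nv_sq n S
    have h2 : ‖nv n S‖ ≠ 0 := by
      intro h; rw [h] at h1; norm_num at h1
    rw [norm_smul, norm_inv, norm_norm]
    exact inv_mul_cancel₀ h2
  choose w hwc hwn hw using fun S => hB (‖nv n S‖⁻¹ • nv n S) (hN S)
  have hk : 1 ≤ 4 ^ n := Nat.one_le_pow _ _ (by norm_num)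
  refine ⟨fun S x => (w S x) ^ (4 ^ n), ?_, ?_, ?_⟩
  · intro S x
    have hx1 : ‖(x : E 2)‖ = 1 := by simp
    rw [norm_pow, ← pow_mul, mul_comm, pow_mul, hwn, hx1]
    unfold bm
    congr 1
    rw [real_inner_smul_left, mul_pow, inv_pow]
    ring
  · intro S
    exact ((hwc S).comp continuous_subtype_val).pow _
  · intro t s
    refine ⟨fun z => ∑ S ∈ s, (if S ∈ t then (1:ℂ) else -1) * (w S z) ^ (4 ^ n), ?_, ?_, ?_⟩
    · apply ContDiff.sum
      intro S _
      exact contDiff_const.mul (hw S (4 ^ n) hk).1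
    · intro x
      beta_reduce
      rw [rs_eq]
    · intro x v hv hxv
      beta_reduce
      rw [rs_eq]
      have hcd : ∀ (S : Finset ℕ) (i : Fin 2), ContDiff ℝ 2
          (fun t : ℝ => (w S (Real.cos t • (x : E 2) + Real.sin t • v i)) ^ (4 ^ n)) := by
        intro S i
        have h1 : ContDiff ℝ 2 (fun z => (w S z) ^ (4 ^ n)) :=
          contDiff_infty.1 (hw S (4 ^ n) hk).1 2
        exact h1.comp ((Real.contDiff_cos.smul contDiff_const).add
          (Real.contDiff_sin.smul contDiff_const))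
      have h2 : ∀ i : Fin 2, iteratedDeriv 2 (fun r : ℝ => ∑ S ∈ s, (if S ∈ t then (1:ℂ) else -1) *
          (w S (Real.cos r • (x : E 2) + Real.sin r • v i)) ^ (4 ^ n)) 0 =
          ∑ S ∈ s, (if S ∈ t then (1:ℂ) else -1) * iteratedDeriv 2 (fun r : ℝ =>
          (w S (Real.cos r • (x : E 2) + Real.sin r • v i)) ^ (4 ^ n)) 0 := by
        intro i
        rw [iteratedDeriv_fun_sum]
        · apply Finset.sum_congr rfl
          intro S _
          rw [iteratedDeriv_const_mul_field]
        · intro S _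
          exact (contDiff_const.mul (hcd S i)).contDiffAt
      simp_rw [h2]
      rw [Finset.sum_comm, Finset.mul_sum]
      apply Finset.sum_congr rfl
      intro S _
      rw [← Finset.mul_sum, (hw S (4 ^ n) hk).2 x v hv hxv]
      have h3 : ((Real.sqrt ((4 ^ n : ℕ) * ((4 ^ n : ℕ) + 1)) : ℝ) : ℂ) ^ 2 =
          (((4 ^ n : ℕ) : ℝ) * (((4 ^ n : ℕ) : ℝ) + 1) : ℝ) := by
        rw [← Complex.ofReal_pow, Real.sq_sqrt (by positivity)]
      rw [h3]
      push_cast
      ring

theorem one_le_lam (n : ℕ) : 1 ≤ Real.sqrt ((4 ^ n : ℕ) * ((4 ^ n : ℕ) + 1)) := by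
  rw [Real.one_le_sqrt]
  have h : (1 : ℝ) ≤ (4 ^ n : ℕ) := by exact_mod_cast Nat.one_le_pow _ _ (by norm_num)
  nlinarith

theorem continuous_FF (n : ℕ) : Continuous (FF n) := by
  unfold FF
  exact continuous_finsetSum _ fun S _ => continuous_bm n S

theorem FF_nonneg (n : ℕ) (x : Sph 2) : 0 ≤ FF n x := Finset.sum_nonneg fun S _ => bm_nonneg n S x

theorem isOpen_Aset : IsOpen Aset := by
  have c0 : Continuous fun x : Sph 2 => (x : E 2) 0 := by fun_prop
  have c1 : Continuous fun x : Sph 2 => (x : E 2) 1 := by fun_prop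
  have c2 : Continuous fun x : Sph 2 => (x : E 2) 2 := by fun_prop
  unfold Aset
  apply IsOpen.union
  · exact isOpen_lt continuous_const c2.abs
  · exact (isOpen_lt continuous_const (c0.mul c1)).inter
      (isOpen_lt (continuous_const.mul c0.abs) c1.abs)

theorem tangent {q K y : ℝ} (hq : 1 ≤ q) (hK : 0 < K) (hy : 0 ≤ y) :
    K ^ (q - 1) * (y - K) ≤ y ^ q := by
  rcases le_or_gt K y with h | h
  · have hy0 : 0 < y := lt_of_lt_of_le hK h
    have e : y ^ q = y ^ (q - 1) * y := by
      conv_rhs => rw [← Real.rpow_one y, ← Real.rpow_mul hy0.le, one_mul, ← Real.rpow_add hy0]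
      congr 1; ring
    rw [e]
    have h1 : K ^ (q - 1) ≤ y ^ (q - 1) := Real.rpow_le_rpow hK.le h (by linarith)
    have h2 : 0 ≤ K ^ (q - 1) := by positivity
    calc K ^ (q - 1) * (y - K) ≤ K ^ (q - 1) * y := by
          apply mul_le_mul_of_nonneg_left (by linarith) h2
      _ ≤ _ := by gcongr
  · have h2 : 0 ≤ K ^ (q - 1) := by positivity
    have h3 : K ^ (q - 1) * (y - K) ≤ 0 := mul_nonpos_of_nonneg_of_nonpos h2 (by linarith)
    have h4 : 0 ≤ y ^ q := by positivity
    linarith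

theorem core (hU : StUpper) (hL : StLower) (hS : StSign) (hB : StBeam) {p : ℝ} (hp2 : 2 < p)
    (hp4 : p < 4) {ε : ℝ} (hε : 0 < ε) :
    ∃ lam : ℝ, 1 ≤ lam ∧ ∃ e : Sph 2 → ℂ, IsEigen 2 lam e ∧
      ∫ x in Aset, ‖e x‖ ^ p ∂(vol 2) < ε * ∫ x, ‖e x‖ ^ p ∂(vol 2) := by
  obtain ⟨C₀, hC₀⟩ := hU
  obtain ⟨c, hc, D, hD, hG⟩ := hL
  set C := max C₀ 1 with hCdef
  have hC1 : 1 ≤ C := le_max_right _ _
  have hC : ∀ n : ℕ, 1 ≤ n → ∀ x ∈ Aset, FF n x ≤ C := fun n hn x hx => (hC₀ n hn x hx).trans (le_max_left _ _)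
  set q := p / 2 with hq
  have hq1 : 1 < q := by rw [hq]; linarith
  set V := (vol 2).real univ with hV
  have hV0 : 0 ≤ V := measureReal_nonneg
  -- choice of n
  obtain ⟨n, hn1, hn2⟩ : ∃ n : ℕ, 1 ≤ n ∧
      3 * C ^ q * V / (ε * (c / 2)) < (c * n / (2 * D)) ^ (q - 1) := by
    have h1 : Tendsto (fun n : ℕ => (c * (n : ℝ) / (2 * D)) ^ (q - 1)) atTop atTop := by
      have h2 : Tendsto (fun n : ℕ => c * (n : ℝ) / (2 * D)) atTop atTop := by
        apply Tendsto.atTop_div_const (by positivity)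
        exact Tendsto.const_mul_atTop hc tendsto_natCast_atTop_atTop
      exact (tendsto_rpow_atTop (by linarith : 0 < q - 1)).comp h2
    obtain ⟨n, h3, h4⟩ := ((h1.eventually_gt_atTop (3 * C ^ q * V / (ε * (c / 2)))).and
      (eventually_ge_atTop 1)).exists
    exact ⟨n, h4, h3⟩
  have hn0 : (0 : ℝ) < n := by exact_mod_cast hn1
  obtain ⟨f, hf, hfc, hfe⟩ := beams hB n
  obtain ⟨G, hGm, hGv, hGi⟩ := hG n hn1
  set s := (Finset.range n).powerset with hs
  set K := c * n / (2 * D) with hK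
  have hK0 : 0 < K := by positivity
  have hsum : ∀ x, ∑ S ∈ s, ‖f S x‖ ^ 2 = FF n x := by
    intro x
    unfold FF
    exact Finset.sum_congr rfl fun S _ => hf S x
  have hcont : ∀ t, Continuous fun x => ‖rs s (fun S => f S x) t‖ ^ p := by
    intro t
    have h1 : Continuous fun x => rs s (fun S => f S x) t := by
      simp_rw [rs_eq]
      exact continuous_finsetSum _ fun S _ => continuous_const.mul (hfc S)
    exact h1.norm.rpow_const fun x => Or.inr (by linarith)
  have hFq : Continuous fun x => (FF n x) ^ q := (continuous_FF n).rpow_const fun x => Or.inr (by linarith)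
  have hint : ∀ g : Sph 2 → ℝ, Continuous g → Integrable g (vol 2) := by
    intro g hg
    exact hg.integrable_of_hasCompactSupport (HasCompactSupport.of_compactSpace _)
  have hpow : (0 : ℝ) < 2 ^ s.card := by positivity
  -- upper bound
  have hup : ∑ t ∈ s.powerset, ∫ x in Aset, ‖rs s (fun S => f S x) t‖ ^ p ∂(vol 2) ≤
      2 ^ s.card * (3 * C ^ q * V) := by
    rw [← integral_finsetSum _ fun t _ => (hint _ (hcont t)).integrableOn]
    have h1 : ∀ x ∈ Aset, ∑ t ∈ s.powerset, ‖rs s (fun S => f S x) t‖ ^ p ≤ 2 ^ s.card * (3 * C ^ q) := by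
      intro x hx
      have h2 := (hS s (fun S => f S x) p hp2.le hp4.le).2
      rw [hsum, inv_mul_le_iff₀ hpow] at h2
      refine h2.trans ?_
      have h3 : FF n x ^ (p / 2) ≤ C ^ q := Real.rpow_le_rpow (FF_nonneg n x) (hC n hn1 x hx) (by linarith)
      gcongr
    calc ∫ x in Aset, ∑ t ∈ s.powerset, ‖rs s (fun S => f S x) t‖ ^ p ∂(vol 2)
        ≤ ∫ x in Aset, (2 ^ s.card * (3 * C ^ q) : ℝ) ∂(vol 2) := by
          apply setIntegral_mono_on _ (integrable_const _).integrableOn isOpen_Aset.measurableSet h1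
          exact (hint _ (continuous_finsetSum _ fun t _ => hcont t)).integrableOn
      _ = (vol 2).real Aset * (2 ^ s.card * (3 * C ^ q)) := by rw [setIntegral_const]; simp
      _ ≤ V * (2 ^ s.card * (3 * C ^ q)) := by
          gcongr
          exact measureReal_mono (subset_univ _)
      _ = _ := by ring
  -- lower bound
  have hlo : 2 ^ s.card * (K ^ (q - 1) * (c / 2)) ≤
      ∑ t ∈ s.powerset, ∫ x, ‖rs s (fun S => f S x) t‖ ^ p ∂(vol 2) := by
    rw [← integral_finsetSum _ fun t _ => hint _ (hcont t)]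
    have h1 : ∀ x, 2 ^ s.card * (FF n x) ^ q ≤ ∑ t ∈ s.powerset, ‖rs s (fun S => f S x) t‖ ^ p := by
      intro x
      have h2 := (hS s (fun S => f S x) p hp2.le hp4.le).1
      rw [hsum] at h2
      calc 2 ^ s.card * (FF n x) ^ q ≤ 2 ^ s.card * ((2 ^ s.card : ℝ)⁻¹ *
            ∑ t ∈ s.powerset, ‖rs s (fun S => f S x) t‖ ^ p) := by gcongr
        _ = _ := by rw [← mul_assoc, mul_inv_cancel₀ hpow.ne', one_mul]
    have h3 : K ^ (q - 1) * (c / 2) ≤ ∫ x, (FF n x) ^ q ∂(vol 2) := by
      calc K ^ (q - 1) * (c / 2) ≤ K ^ (q - 1) * ((∫ x in G, FF n x ∂(vol 2)) - K * (vol 2).real G) := by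
            apply mul_le_mul_of_nonneg_left _ (by positivity)
            have : K * (vol 2).real G ≤ c / 2 := by
              calc K * (vol 2).real G ≤ K * (D / n) := by gcongr
                _ = c / 2 := by rw [hK]; field_simp
            linarith
        _ = ∫ x in G, K ^ (q - 1) * (FF n x - K) ∂(vol 2) := by
            rw [integral_const_mul, integral_sub (hint _ (continuous_FF n)).integrableOn
              (integrable_const _).integrableOn, setIntegral_const]
            simp only [smul_eq_mul]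
            ring
        _ ≤ ∫ x in G, (FF n x) ^ q ∂(vol 2) := by
            apply setIntegral_mono
            · exact (hint _ (continuous_const.mul ((continuous_FF n).sub continuous_const))).integrableOn
            · exact (hint _ hFq).integrableOn
            · intro x
              exact tangent hq1.le hK0 (FF_nonneg n x)
        _ ≤ _ := by
            apply setIntegral_le_integral (hint _ hFq)
            exact Eventually.of_forall fun x => Real.rpow_nonneg (FF_nonneg n x) _
    calc 2 ^ s.card * (K ^ (q - 1) * (c / 2)) ≤ 2 ^ s.card * ∫ x, (FF n x) ^ q ∂(vol 2) := by gcongr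
      _ = ∫ x, 2 ^ s.card * (FF n x) ^ q ∂(vol 2) := by rw [integral_const_mul]
      _ ≤ _ := by
          apply integral_mono
          · exact (hint _ hFq).const_mul _
          · exact hint _ (continuous_finsetSum _ fun t _ => hcont t)
          · exact h1
  have hlt : ∑ t ∈ s.powerset, ∫ x in Aset, ‖rs s (fun S => f S x) t‖ ^ p ∂(vol 2) <
      ∑ t ∈ s.powerset, ε * ∫ x, ‖rs s (fun S => f S x) t‖ ^ p ∂(vol 2) := by
    rw [← Finset.mul_sum]
    refine lt_of_le_of_lt hup (lt_of_lt_of_le ?_ (mul_le_mul_of_nonneg_left hlo hε.le))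
    rw [div_lt_iff₀ (by positivity)] at hn2
    calc 2 ^ s.card * (3 * C ^ q * V) < 2 ^ s.card * (K ^ (q - 1) * (ε * (c / 2))) := by gcongr
      _ = _ := by ring
  obtain ⟨t, _, ht⟩ := Finset.exists_lt_of_sum_lt hlt
  exact ⟨_, one_le_lam n, _, hfe t s, ht⟩

end Pool.Agent.N242.TG
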