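import Pool.Agent.N242.TG.Defs

open MeasureTheory Set
open scoped Pointwise

namespace Pool.Agent.N242.TG

theorem vol_le_of {X : Set (Sph 2)} (hX : MeasurableSet X) {V : Set (E 2)}
    (h : ∀ x ∈ X, ∀ r ∈ Ioo (0:ℝ) 1, r • (x : E 2) ∈ V) : vol 2 X ≤ 3 * volume V := by
  unfold vol
  rw [Measure.toSphere_apply' _ hX]
  have h3 : Module.finrank ℝ (E 2) = 3 := by simp
  rw [h3]
  gcongr
  · norm_num
  · rintro z ⟨r, hr, y, ⟨x, hx, rfl⟩, rfl⟩
    exact h x hx r hr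

theorem le_vol_of {X : Set (Sph 2)} (hX : MeasurableSet X) {W : Set (E 2)}
    (h : ∀ z ∈ W, ∃ x ∈ X, ∃ r ∈ Ioo (0:ℝ) 1, z = r • (x : E 2)) : 3 * volume W ≤ vol 2 X := by
  unfold vol
  rw [Measure.toSphere_apply' _ hX]
  have h3 : Module.finrank ℝ (E 2) = 3 := by simp
  rw [h3]
  gcongr
  · norm_num
  · intro z hz
    obtain ⟨x, hx, r, hr, rfl⟩ := h z hz
    exact ⟨r, hr, x, ⟨x, hx, rfl⟩, rfl⟩

/-- normalisation of a vector of E 2 -/
theorem exists_sph {z : E 2} (hz : z ≠ 0) : ∃ x : Sph 2, z = ‖z‖ • (x : E 2) := by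
  refine ⟨⟨‖z‖⁻¹ • z, ?_⟩, ?_⟩
  · rw [mem_sphere_zero_iff_norm, norm_smul, norm_inv, norm_norm]
    exact inv_mul_cancel₀ (norm_ne_zero_iff.2 hz)
  · simp only [smul_smul]
    rw [mul_inv_cancel₀ (norm_ne_zero_iff.2 hz), one_smul]

theorem box_vol (s α β : ℝ) {I0 I1 I2 : Set ℝ} (h0 : MeasurableSet I0) (h1 : MeasurableSet I1)
    (h2 : MeasurableSet I2) :
    volume {z : E 2 | z 0 ∈ I0 ∧ z 1 - s * z 0 ∈ I1 ∧ z 2 - (α * z 1 + β * z 0) ∈ I2} =
      volume I0 * volume I1 * volume I2 := by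
  let M : Matrix (Fin 3) (Fin 3) ℝ := !![1,0,0; -s,1,0; -β,-α,1]
  have hM : M.det = 1 := by simp [M, Matrix.det_fin_three]
  let J : Fin 3 → Set ℝ := ![I0, I1, I2]
  have hJ : ∀ i, MeasurableSet (J i) := by
    intro i; fin_cases i <;> simp [J, h0, h1, h2]
  have hset : {z : E 2 | z 0 ∈ I0 ∧ z 1 - s * z 0 ∈ I1 ∧ z 2 - (α * z 1 + β * z 0) ∈ I2} =
      (@WithLp.ofLp 2 (Fin 3 → ℝ)) ⁻¹' ((Matrix.toLin' M) ⁻¹' (Set.pi univ J)) := by
    ext z
    simp only [mem_setOf_eq, mem_preimage, mem_pi, mem_univ, forall_true_left, Matrix.toLin'_apply]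
    rw [Fin.forall_fin_succ, Fin.forall_fin_two]
    have e0 : M.mulVec z.ofLp 0 = z 0 := by simp [M, Matrix.mulVec, dotProduct, Fin.sum_univ_three]
    have e1 : M.mulVec z.ofLp 1 = z 1 - s * z 0 := by
      simp [M, Matrix.mulVec, dotProduct, Fin.sum_univ_three]; ring
    have e2 : M.mulVec z.ofLp 2 = z 2 - (α * z 1 + β * z 0) := by
      simp [M, Matrix.mulVec, dotProduct, Fin.sum_univ_three]; ring
    have s0 : (Fin.succ (0 : Fin 2)) = (1 : Fin 3) := rfl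
    have s1 : (Fin.succ (1 : Fin 2)) = (2 : Fin 3) := rfl
    rw [s0, s1, e0, e1, e2]
    simp [J]
  have hmeas : MeasurableSet ((Matrix.toLin' M) ⁻¹' (Set.pi univ J)) := by
    apply MeasurableSet.preimage
    · exact MeasurableSet.univ_pi hJ
    · exact (LinearMap.continuous_of_finiteDimensional _).measurable
  rw [hset, (PiLp.volume_preserving_ofLp (Fin 3)).measure_preimage hmeas.nullMeasurableSet,
    Measure.addHaar_preimage_linearMap]
  · rw [LinearMap.det_toLin', hM]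
    simp only [inv_one, abs_one, ENNReal.ofReal_one, one_mul]
    rw [volume_pi_pi, Fin.prod_univ_three]
    simp [J]
  · rw [LinearMap.det_toLin', hM]; norm_num

end Pool.Agent.N242.TG
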